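import Pool.Agent.H664.EX.Stm

/-!
Project EX (helper664), job RAY: the solutions of `e^z = y(z)` with a continuous index.
-/

set_option autoImplicit false

namespace Pool.Agent.H935.EX

open MvPolynomial Filter Topology Metric Pool.Agent.W996.EC Pool.Agent.Q72.EG Pool.Agent.H664.FH
  Pool.Agent.H664.EX

/-! ### polynomials at infinity -/

theorem poly_low {p : Polynomial ℂ} (hp : p ≠ 0) : ∃ m R₀ : ℝ, 0 < m ∧ ∀ x : ℂ, R₀ ≤ ‖x‖ →
    m ≤ ‖p.eval x‖ := by
  by_cases hd : 0 < p.degree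
  · have h := p.tendsto_norm_atTop hd tendsto_norm_cocompact_atTop
    have h1 : ∀ᶠ x : ℂ in cocompact ℂ, 1 ≤ ‖p.eval x‖ := h.eventually_ge_atTop 1
    rw [← Metric.cobounded_eq_cocompact] at h1
    obtain ⟨R, -, hR⟩ := (Metric.hasBasis_cobounded_compl_closedBall (0 : ℂ)).eventually_iff.1 h1
    refine ⟨1, R + 1, one_pos, fun x hx => ?_⟩
    apply hR
    simp only [Set.mem_compl_iff, mem_closedBall, dist_zero_right, not_le]
    linarith
  · have h1 := Polynomial.eq_C_of_degree_le_zero (not_lt.1 hd)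
    have h2 : p.coeff 0 ≠ 0 := by
      intro h
      apply hp
      rw [h1, h, Polynomial.C_0]
    refine ⟨‖p.coeff 0‖, 0, norm_pos_iff.2 h2, fun x _ => ?_⟩
    rw [h1, Polynomial.eval_C, Polynomial.coeff_C_zero]

theorem poly_up (p : Polynomial ℂ) : ∃ (n : ℕ) (A : ℝ), 0 ≤ A ∧ ∀ x : ℂ, 1 ≤ ‖x‖ →
    ‖p.eval x‖ ≤ A * ‖x‖ ^ n := by
  refine ⟨p.natDegree, ∑ i ∈ Finset.range (p.natDegree + 1), ‖p.coeff i‖,
    Finset.sum_nonneg fun i _ => norm_nonneg _, fun x hx => ?_⟩
  rw [Polynomial.eval_eq_sum_range, Finset.sum_mul]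
  refine (norm_sum_le _ _).trans (Finset.sum_le_sum fun i hi => ?_)
  rw [norm_mul, norm_pow]
  refine mul_le_mul_of_nonneg_left (pow_le_pow_right₀ hx ?_) (norm_nonneg _)
  have := Finset.mem_range.1 hi
  omega

/-- the one variable polynomial -/
noncomputable def pol (H : MvPolynomial (Fin 1) ℂ) : Polynomial ℂ :=
  aeval (fun _ => Polynomial.X) H

theorem eval_pol (H : MvPolynomial (Fin 1) ℂ) (t : Fin 1 → ℂ) :
    (pol H).eval (t 0) = eval t H := by
  unfold pol
  induction H using MvPolynomial.induction_on with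
  | C c => simp
  | add p q hp hq => rw [map_add, Polynomial.eval_add, hp, hq, map_add]
  | mul_X p i hp =>
    rw [map_mul, Polynomial.eval_mul, hp, map_mul, aeval_X, eval_X, Polynomial.eval_X]
    rw [Subsingleton.elim i 0]

theorem pol_ne {H : MvPolynomial (Fin 1) ℂ} (h : H ≠ 0) : pol H ≠ 0 := by
  intro h0
  apply h
  apply MvPolynomial.funext
  intro t
  rw [← eval_pol, h0, Polynomial.eval_zero, map_zero]

theorem low {H : MvPolynomial (Fin 1) ℂ} (h : H ≠ 0) : ∃ m R₀ : ℝ, 0 < m ∧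
    ∀ t : Fin 1 → ℂ, R₀ ≤ ‖t 0‖ → m ≤ ‖eval t H‖ := by
  obtain ⟨m, R, hm, hR⟩ := poly_low (pol_ne h)
  exact ⟨m, R, hm, fun t ht => by rw [← eval_pol]; exact hR _ ht⟩

theorem up (H : MvPolynomial (Fin 1) ℂ) : ∃ (n : ℕ) (A : ℝ), 0 ≤ A ∧
    ∀ t : Fin 1 → ℂ, 1 ≤ ‖t 0‖ → ‖eval t H‖ ≤ A * ‖t 0‖ ^ n := by
  obtain ⟨n, A, hA, h⟩ := poly_up (pol H)
  exact ⟨n, A, hA, fun t ht => by rw [← eval_pol]; exact h _ ht⟩

/-- growth of the roots -/
theorem roots {A : Polynomial (MvPolynomial (Fin 1) ℂ)} (hA : A ≠ 0) :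
    ∃ (n : ℕ) (B R₀ : ℝ), 0 ≤ B ∧ ∀ t : Fin 1 → ℂ, R₀ ≤ ‖t 0‖ → ∀ w : ℂ,
      (A.map (eval t)).eval w = 0 → ‖w‖ ≤ B * ‖t 0‖ ^ n := by
  obtain ⟨m, R, hm, hR⟩ := low (Polynomial.leadingCoeff_ne_zero.2 hA)
  rcases Nat.eq_zero_or_pos A.natDegree with hd | hd
  · refine ⟨0, 0, R, le_rfl, fun t ht w hw => ?_⟩
    exfalso
    have h1 := hR t ht
    rw [Polynomial.eq_C_of_natDegree_eq_zero hd, Polynomial.map_C, Polynomial.eval_C] at hw
    rw [Polynomial.leadingCoeff, hd, hw, norm_zero] at h1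
    linarith
  · obtain ⟨d, hd⟩ : ∃ d, A.natDegree = d + 1 := ⟨A.natDegree - 1, by omega⟩
    choose n B hB hup using up
    set N := ∑ j ∈ Finset.range (d + 2), n (A.coeff j) with hN
    set S := ∑ j ∈ Finset.range (d + 2), B (A.coeff j) with hS
    have hS0 : 0 ≤ S := Finset.sum_nonneg fun j _ => hB _
    refine ⟨N, (d + 1) * S / m + 1, max R 1, by positivity, fun t ht w hw => ?_⟩
    have ht1 : 1 ≤ ‖t 0‖ := (le_max_right _ _).trans ht
    have htN : 1 ≤ ‖t 0‖ ^ N := one_le_pow₀ ht1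
    have h1 := hR t ((le_max_left _ _).trans ht)
    have hdeg : (A.map (eval t)).natDegree ≤ d + 1 := by
      rw [← hd]
      exact Polynomial.natDegree_map_le
    have h2 := Pool.Agent.Q239.EG.root_bound (p := A.map (eval t)) (d := d) (A := S * ‖t 0‖ ^ N)
      (m := m) (M := 0) (z := w) hdeg hm le_rfl (by positivity)
      (by rw [Polynomial.coeff_map, ← hd]; exact h1) (by
        intro j
        rw [Polynomial.coeff_map]
        by_cases hj : j < d + 2
        · refine (hup (A.coeff j) t ht1).trans ?_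
          apply mul_le_mul
          · exact Finset.single_le_sum (f := fun j => B (A.coeff j)) (fun i _ => hB _)
              (Finset.mem_range.2 hj)
          · exact pow_le_pow_right₀ ht1 (Finset.single_le_sum (f := fun j => n (A.coeff j))
              (fun i _ => Nat.zero_le _) (Finset.mem_range.2 hj))
          · positivity
          · exact hS0
        · rw [Polynomial.coeff_eq_zero_of_natDegree_lt (by omega), map_zero, norm_zero]
          positivity)
      (by rw [hw, norm_zero])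
    calc ‖w‖ ≤ (0 + (d + 1) * (S * ‖t 0‖ ^ N)) / m + 1 := h2
      _ = (d + 1) * S / m * ‖t 0‖ ^ N + 1 := by ring
      _ ≤ (d + 1) * S / m * ‖t 0‖ ^ N + ‖t 0‖ ^ N := by linarith
      _ = _ := by ring

/-- growth of the roots, in terms of `T` -/
theorem rootsT {A : Polynomial (MvPolynomial (Fin 1) ℂ)} (hA : A ≠ 0) :
    ∃ (C : ℕ) (T₀ : ℝ), ∀ T : ℝ, T₀ ≤ T → ∀ t : Fin 1 → ℂ, 2 * T ≤ ‖t 0‖ → ‖t 0‖ ≤ 11 * T →
      ∀ w : ℂ, (A.map (eval t)).eval w = 0 → ‖w‖ ≤ T ^ C := by
  obtain ⟨n, B, R₀, hB, h⟩ := roots hA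
  refine ⟨n + 1, max (max R₀ 1) (B * 11 ^ n), fun T hT t h1 h2 w hw => ?_⟩
  have hT1 : 1 ≤ T := (le_max_right _ _).trans ((le_max_left _ _).trans hT)
  have hTR : R₀ ≤ T := (le_max_left _ _).trans ((le_max_left _ _).trans hT)
  have hTB : B * 11 ^ n ≤ T := (le_max_right _ _).trans hT
  calc ‖w‖ ≤ B * ‖t 0‖ ^ n := h t (by linarith) w hw
    _ ≤ B * (11 * T) ^ n := mul_le_mul_of_nonneg_left
        (pow_le_pow_left₀ (norm_nonneg _) h2 n) hB
    _ = (B * 11 ^ n) * T ^ n := by rw [mul_pow]; ring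
    _ ≤ T * T ^ n := mul_le_mul_of_nonneg_right hTB (by positivity)
    _ = T ^ (n + 1) := by ring

/-! ### separable relations -/

variable {K : Type} [Field K] [Algebra ℂ K]

/-- a separable relation -/
theorem sep {τ : Type} (ζ : τ → K) (f : K) (h : Al (Set.range ζ) f) :
    ∃ A : Polynomial (MvPolynomial τ ℂ),
      (A.map (aeval ζ : MvPolynomial τ ℂ →ₐ[ℂ] K).toRingHom).eval f = 0 ∧
      (A.derivative.map (aeval ζ : MvPolynomial τ ℂ →ₐ[ℂ] K).toRingHom).eval f ≠ 0 := by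
  classical
  set φ := (aeval ζ : MvPolynomial τ ℂ →ₐ[ℂ] K).toRingHom with hφ
  have hex : ∃ n : ℕ, ∃ A : Polynomial (MvPolynomial τ ℂ), (A.map φ).natDegree = n ∧
      A.map φ ≠ 0 ∧ (A.map φ).eval f = 0 := by
    obtain ⟨A, ⟨b, hb⟩, hA⟩ := Pool.Agent.Q206.EG.alg_poly ζ f h
    refine ⟨_, A, rfl, ?_, hA⟩
    intro h0
    apply hb
    have : (A.map φ).coeff b = 0 := by rw [h0, Polynomial.coeff_zero]
    rwa [Polynomial.coeff_map] at this
  obtain ⟨A, hn, h0, hA⟩ := Nat.find_spec hex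
  refine ⟨A, hA, fun hd => ?_⟩
  have hpos : (A.map φ).natDegree ≠ 0 := by
    intro h1
    rw [Polynomial.eq_C_of_natDegree_eq_zero h1, Polynomial.eval_C] at hA
    apply h0
    rw [Polynomial.eq_C_of_natDegree_eq_zero h1, hA, Polynomial.C_0]
  have h2 : (A.derivative.map φ) ≠ 0 := by
    rw [← Polynomial.derivative_map]
    have : CharZero K := charZero_of_injective_algebraMap (algebraMap ℂ K).injective
    intro h1
    exact hpos (Polynomial.derivative_eq_zero.1 h1)
  have h3 : (A.derivative.map φ).natDegree < Nat.find hex := by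
    rw [← hn, ← Polynomial.derivative_map]
    exact Polynomial.natDegree_derivative_lt hpos
  exact Nat.find_min hex h3 ⟨A.derivative, rfl, h2, hd⟩

/-- the polynomial in two variables -/
noncomputable def two (A : Polynomial (MvPolynomial (Fin 1) ℂ)) : MvPolynomial (Fin 2) ℂ :=
  A.eval₂ (rename (fun _ => 0) : MvPolynomial (Fin 1) ℂ →ₐ[ℂ] MvPolynomial (Fin 2) ℂ).toRingHom
    (X 1)

theorem aeval_two (A : Polynomial (MvPolynomial (Fin 1) ℂ)) (z k : K) :
    aeval ![z, k] (two A) =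
      (A.map (aeval ![z] : MvPolynomial (Fin 1) ℂ →ₐ[ℂ] K).toRingHom).eval k := by
  unfold two
  rw [Polynomial.eval_map]
  have h := Polynomial.hom_eval₂ A
    (rename (fun _ => 0) : MvPolynomial (Fin 1) ℂ →ₐ[ℂ] MvPolynomial (Fin 2) ℂ).toRingHom
    (aeval ![z, k] : MvPolynomial (Fin 2) ℂ →ₐ[ℂ] K).toRingHom (X 1)
  have h1 : ((aeval ![z, k] : MvPolynomial (Fin 2) ℂ →ₐ[ℂ] K).toRingHom).comp
      (rename (fun _ => 0) : MvPolynomial (Fin 1) ℂ →ₐ[ℂ] MvPolynomial (Fin 2) ℂ).toRingHom =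
      (aeval ![z] : MvPolynomial (Fin 1) ℂ →ₐ[ℂ] K).toRingHom := by
    ext q
    · simp
    · rename_i i
      simp
  rw [h1] at h
  have h2 : (aeval ![z, k] : MvPolynomial (Fin 2) ℂ →ₐ[ℂ] K).toRingHom (X 1) = k := by
    simp
  rw [h2] at h
  exact h

theorem pderiv_two (A : Polynomial (MvPolynomial (Fin 1) ℂ)) :
    pderiv 1 (two A) = two A.derivative := by
  unfold two
  induction A using Polynomial.induction_on' with
  | add p q hp hq =>
    rw [Polynomial.eval₂_add, map_add, hp, hq, Polynomial.derivative_add, Polynomial.eval₂_add]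
  | monomial n a =>
    rw [Polynomial.eval₂_monomial, Polynomial.derivative_monomial, Polynomial.eval₂_monomial]
    have h0 : pderiv (1 : Fin 2) ((rename (fun _ => 0) :
        MvPolynomial (Fin 1) ℂ →ₐ[ℂ] MvPolynomial (Fin 2) ℂ).toRingHom a) = 0 := by
      induction a using MvPolynomial.induction_on with
      | C c => simp
      | add p q hp hq => rw [map_add, map_add, hp, hq, add_zero]
      | mul_X p i hp =>
        rw [map_mul, Derivation.leibniz, hp]
        simp [pderiv_X]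
    rw [Derivation.leibniz, h0, Derivation.leibniz_pow, pderiv_X_self]
    simp only [smul_eq_mul, nsmul_eq_mul, mul_one, mul_zero, add_zero, map_mul, map_natCast]
    ring

theorem sep2 (z k : K) (h : Al {z} k) : ∃ g : MvPolynomial (Fin 2) ℂ,
    aeval ![z, k] g = 0 ∧ aeval ![z, k] (pderiv 1 g) ≠ 0 := by
  have hr : Set.range (![z] : Fin 1 → K) = {z} := by simp
  obtain ⟨A, h1, h2⟩ := sep (![z] : Fin 1 → K) k (by rw [hr]; exact h)
  refine ⟨two A, ?_, ?_⟩
  · rw [aeval_two]; exact h1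
  · rw [pderiv_two, aeval_two]; exact h2

/-! ### derivatives of polynomials -/

theorem der_K (D : Derivation ℂ K K) (z k : K) (g : MvPolynomial (Fin 2) ℂ) :
    D (aeval ![z, k] g) =
      aeval ![z, k] (pderiv 0 g) * D z + aeval ![z, k] (pderiv 1 g) * D k := by
  induction g using MvPolynomial.induction_on with
  | C c => simp
  | add p q hp hq => simp only [map_add, hp, hq]; ring
  | mul_X p i hp =>
    rw [map_mul, Derivation.leibniz, hp]
    fin_cases i
    · simp [pderiv_X]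
      ring
    · simp [pderiv_X]
      ring

theorem der_C {x q : ℂ → ℂ} {κ x' q' : ℂ} (hx : HasDerivAt x x' κ) (hq : HasDerivAt q q' κ)
    (g : MvPolynomial (Fin 2) ℂ) :
    HasDerivAt (fun τ => eval ![x τ, q τ] g)
      (eval ![x κ, q κ] (pderiv 0 g) * x' + eval ![x κ, q κ] (pderiv 1 g) * q') κ := by
  induction g using MvPolynomial.induction_on with
  | C c => simpa using hasDerivAt_const κ c
  | add p r hp hr =>
    simp only [map_add]
    exact (hp.fun_add hr).congr_deriv (by ring)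
  | mul_X p i hp =>
    simp only [map_mul, eval_X]
    fin_cases i
    · refine (hp.fun_mul hx).congr_deriv ?_
      simp [pderiv_X]
      ring
    · refine (hp.fun_mul hq).congr_deriv ?_
      simp [pderiv_X]
      ring

/-! ### values -/

/-- the values `p k`, `k ∈ Q`, satisfy all polynomial relations between the elements of `Q` -/
def Vals (Q : Finset K) (p : K → ℂ) : Prop :=
  ∀ (σ : Type) (e : σ → K), (∀ i, e i ∈ Q) → ∀ g : MvPolynomial σ ℂ, aeval e g = 0 →
    eval (fun i => p (e i)) g = 0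

theorem Vals.val {Q : Finset K} {p : K → ℂ} (h : Vals Q p) {σ : Type} (e : σ → K)
    (he : ∀ i, e i ∈ Q) (g : MvPolynomial σ ℂ) (hg : aeval e g ∈ Q) :
    p (aeval e g) = eval (fun i => p (e i)) g := by
  have h1 := h (Option σ) (fun o => o.elim (aeval e g) e) (by
    rintro (_ | i)
    · exact hg
    · exact he i) (X none - rename some g) (by
      rw [map_sub, aeval_X, aeval_rename]
      exact sub_self _)
  rw [map_sub, eval_X, eval_rename] at h1
  exact sub_eq_zero.1 h1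

theorem Vals.inv {Q : Finset K} {p : K → ℂ} (h : Vals Q p) {k : K} (hk : k ∈ Q)
    (hk' : k⁻¹ ∈ Q) (h0 : k ≠ 0) : p k * p k⁻¹ = 1 := by
  have h1 := h (Fin 2) ![k, k⁻¹] (by
    intro i
    fin_cases i
    · exact hk
    · exact hk') (X 0 * X 1 - 1) (by
      simp [h0])
  simp only [map_sub, map_mul, eval_X, map_one, Matrix.cons_val_zero, Matrix.cons_val_one] at h1
  exact sub_eq_zero.1 h1

theorem Vals.ne {Q : Finset K} {p : K → ℂ} (h : Vals Q p) {k : K} (hk : k ∈ Q)
    (hk' : k⁻¹ ∈ Q) (h0 : k ≠ 0) : p k ≠ 0 := by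
  have h1 := h.inv hk hk' h0
  intro h2
  rw [h2, zero_mul] at h1
  exact zero_ne_one h1

omit [Algebra ℂ K] in
/-- closed under inverses -/
theorem exists_closed (Q : Finset K) : ∃ Q' : Finset K, Q ⊆ Q' ∧ ∀ k ∈ Q', k⁻¹ ∈ Q' := by
  classical
  refine ⟨Q ∪ Q.image (fun k => k⁻¹), Finset.subset_union_left, fun k hk => ?_⟩
  rw [Finset.mem_union, Finset.mem_image] at hk ⊢
  rcases hk with hk | ⟨l, hl, rfl⟩
  · exact Or.inr ⟨k, hk, rfl⟩
  · exact Or.inl (by rw [inv_inv]; exact hl)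

/-- **derivatives** -/
theorem ders (z y : K) (D : Derivation ℂ K K) (hz : ∀ f : K, Al {z} f) (hy : y ≠ 0)
    (hD : D y = y * (D z - algebraMap ℂ K (2 * Real.pi * Complex.I))) (Q : Finset K) :
    ∃ Q' : Finset K, Q ⊆ Q' ∧ z ∈ Q' ∧ y ∈ Q' ∧ (∀ k ∈ Q', k⁻¹ ∈ Q') ∧
      ∀ (U : Set ℂ) (q : K → ℂ → ℂ), IsOpen U → (∀ k ∈ Q', DifferentiableOn ℂ (q k) U) →
      (∀ κ ∈ U, Vals Q' (fun k => q k κ)) →
      (∀ κ ∈ U, q y κ = Complex.exp (q z κ - 2 * Real.pi * Complex.I * κ)) →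
      ∀ κ ∈ U, ∀ k ∈ Q, D k ∈ Q → deriv (q k) κ = q (D k) κ := by
  classical
  choose G hG1 hG2 using fun k => sep2 z k (hz k)
  set w : K → K := fun k => aeval ![z, k] (pderiv 1 (G k)) with hw
  set c : ℂ := 2 * Real.pi * Complex.I with hc
  have hc0 : c ≠ 0 := by
    rw [hc]
    simp [Real.pi_ne_zero]
  set gu : MvPolynomial (Fin 2) ℂ := pderiv 0 (G y) + X 1 * pderiv 1 (G y) with hgu
  set u : K := aeval ![z, y] gu with hu
  -- the relation for `y`
  have hyrel : aeval ![z, y] (pderiv 0 (G y)) * D z +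
      w y * (y * (D z - algebraMap ℂ K c)) = 0 := by
    rw [← hD, ← der_K, hG1, map_zero]
  have huval : u = aeval ![z, y] (pderiv 0 (G y)) + y * w y := by
    rw [hu, hgu, map_add, map_mul, aeval_X]
    rfl
  have hu0 : u ≠ 0 := by
    intro h0
    have h1 : u * D z = algebraMap ℂ K c * y * w y := by
      rw [huval]
      linear_combination hyrel
    rw [h0, zero_mul] at h1
    have h2 : algebraMap ℂ K c ≠ 0 := by
      rw [Ne, map_eq_zero]
      exact hc0
    exact mul_ne_zero (mul_ne_zero h2 hy) (hG2 y) h1.symm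
  obtain ⟨Q', hQ', hinv⟩ := exists_closed (Q ∪ Q.image w ∪ {z, y, D z, u, w y})
  have hQQ : Q ⊆ Q' := fun k hk => hQ' (by simp [hk])
  have hwQ : ∀ k ∈ Q, w k ∈ Q' := fun k hk => hQ' (by
    rw [Finset.mem_union, Finset.mem_union]
    exact Or.inl (Or.inr (Finset.mem_image_of_mem w hk)))
  have hzQ : z ∈ Q' := hQ' (by simp)
  have hyQ : y ∈ Q' := hQ' (by simp)
  have hDz : D z ∈ Q' := hQ' (by simp)
  have huQ : u ∈ Q' := hQ' (by simp)
  have hwyQ : w y ∈ Q' := hQ' (by simp)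
  refine ⟨Q', hQQ, hzQ, hyQ, hinv, ?_⟩
  intro U q hU hq hV hexp κ hκ k hk hDk
  have hnh : U ∈ 𝓝 κ := hU.mem_nhds hκ
  have hqd : ∀ k ∈ Q', HasDerivAt (q k) (deriv (q k) κ) κ := fun k hk =>
    ((hq k hk).differentiableAt hnh).hasDerivAt
  have mem2 : ∀ k ∈ Q', ∀ i : Fin 2, (![z, k] : Fin 2 → K) i ∈ Q' := by
    intro k hk i
    fin_cases i
    · exact hzQ
    · exact hk
  have fun2 : ∀ (k : K) (τ : ℂ), (fun i : Fin 2 => q ((![z, k] : Fin 2 → K) i) τ) =
      ![q z τ, q k τ] := by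
    intro k τ
    funext i
    fin_cases i <;> rfl
  -- the relation on `U`, differentiated
  have hrel : ∀ k ∈ Q', eval ![q z κ, q k κ] (pderiv 0 (G k)) * deriv (q z) κ +
      eval ![q z κ, q k κ] (pderiv 1 (G k)) * deriv (q k) κ = 0 := by
    intro k hk
    have h1 := der_C (hqd z hzQ) (hqd k hk) (G k)
    have h2 : (fun τ => eval ![q z τ, q k τ] (G k)) =ᶠ[𝓝 κ] fun _ => (0 : ℂ) := by
      filter_upwards [hnh] with τ hτ
      have := hV τ hτ (Fin 2) ![z, k] (mem2 k hk) (G k) (hG1 k)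
      rwa [fun2] at this
    have h3 := h1.congr_of_eventuallyEq h2.symm
    exact h3.unique (hasDerivAt_const κ (0 : ℂ))
  -- the same in `K`
  have hrelK : ∀ k ∈ Q', D k ∈ Q' → eval ![q z κ, q k κ] (pderiv 0 (G k)) * q (D z) κ +
      eval ![q z κ, q k κ] (pderiv 1 (G k)) * q (D k) κ = 0 := by
    intro k hk hDk
    have h1 := hV κ hκ (Fin 2 ⊕ Fin 2) (Sum.elim ![z, k] ![D z, D k]) (by
      rintro (i | i)
      · exact mem2 k hk i
      · fin_cases i
        · exact hDz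
        · exact hDk)
      (rename Sum.inl (pderiv 0 (G k)) * X (Sum.inr 0) +
        rename Sum.inl (pderiv 1 (G k)) * X (Sum.inr 1)) (by
        rw [map_add, map_mul, map_mul, aeval_rename, aeval_rename, aeval_X, aeval_X,
          Sum.elim_comp_inl]
        have h2 := der_K D z k (G k)
        rw [hG1, map_zero] at h2
        exact h2.symm)
    rw [map_add, map_mul, map_mul, eval_rename, eval_rename, eval_X, eval_X] at h1
    have h3 : (fun i => q ((Sum.elim ![z, k] ![D z, D k] : Fin 2 ⊕ Fin 2 → K) i) κ) ∘ Sum.inl =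
        ![q z κ, q k κ] := fun2 k κ
    rw [h3] at h1
    exact h1
  have hwval : ∀ k ∈ Q', w k ∈ Q' → eval ![q z κ, q k κ] (pderiv 1 (G k)) ≠ 0 := by
    intro k hk hwk
    have h1 := (hV κ hκ).val ![z, k] (mem2 k hk) (pderiv 1 (G k)) hwk
    rw [fun2] at h1
    rw [← h1]
    exact (hV κ hκ).ne hwk (hinv _ hwk) (hG2 k)
  -- the derivative of `z`
  have hX : deriv (q z) κ = q (D z) κ := by
    have e1 : deriv (q y) κ = q y κ * (deriv (q z) κ - c) := by
      have h1 : HasDerivAt (fun τ => Complex.exp (q z τ - 2 * Real.pi * Complex.I * τ))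
          (Complex.exp (q z κ - 2 * Real.pi * Complex.I * κ) * (deriv (q z) κ - c)) κ := by
        have h2 := ((hqd z hzQ).fun_sub ((hasDerivAt_id κ).const_mul c))
        have h3 := h2.cexp
        simp only [id, mul_one] at h3
        exact h3
      have h2 : q y =ᶠ[𝓝 κ] fun τ => Complex.exp (q z τ - 2 * Real.pi * Complex.I * τ) := by
        filter_upwards [hnh] with τ hτ
        exact hexp τ hτ
      rw [hexp κ hκ]
      exact (h1.congr_of_eventuallyEq h2).deriv
    have e2 := hrel y hyQ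
    rw [e1] at e2
    have e3 : eval ![q z κ, q y κ] (pderiv 0 (G y)) * q (D z) κ +
        eval ![q z κ, q y κ] (pderiv 1 (G y)) * (q y κ * (q (D z) κ - c)) = 0 := by
      have h1 := hV κ hκ (Fin 2 ⊕ Fin 1) (Sum.elim ![z, y] ![D z]) (by
        rintro (i | i)
        · exact mem2 y hyQ i
        · fin_cases i
          exact hDz)
        (rename Sum.inl (pderiv 0 (G y)) * X (Sum.inr 0) +
          rename Sum.inl (pderiv 1 (G y)) * (X (Sum.inl 1) * (X (Sum.inr 0) - C c))) (by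
          rw [map_add, map_mul, map_mul, map_mul, map_sub, aeval_rename, aeval_rename, aeval_X,
            aeval_X, aeval_C, Sum.elim_comp_inl]
          exact hyrel)
      rw [map_add, map_mul, map_mul, map_mul, map_sub, eval_rename, eval_rename, eval_X, eval_X,
        eval_C] at h1
      have h3 : (fun i => q ((Sum.elim ![z, y] ![D z] : Fin 2 ⊕ Fin 1 → K) i) κ) ∘ Sum.inl =
          ![q z κ, q y κ] := fun2 y κ
      rw [h3] at h1
      exact h1
    have e4 : eval ![q z κ, q y κ] (pderiv 0 (G y)) +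
        q y κ * eval ![q z κ, q y κ] (pderiv 1 (G y)) ≠ 0 := by
      have h1 := (hV κ hκ).val ![z, y] (mem2 y hyQ) gu huQ
      rw [fun2] at h1
      have h3 : eval ![q z κ, q y κ] gu = eval ![q z κ, q y κ] (pderiv 0 (G y)) +
          q y κ * eval ![q z κ, q y κ] (pderiv 1 (G y)) := by
        rw [hgu, map_add, map_mul, eval_X]
        rfl
      have h2 := (hV κ hκ).ne huQ (hinv _ huQ) hu0
      rw [← h3, ← h1]
      exact h2
    have e5 : (eval ![q z κ, q y κ] (pderiv 0 (G y)) +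
        q y κ * eval ![q z κ, q y κ] (pderiv 1 (G y))) * (deriv (q z) κ - q (D z) κ) = 0 := by
      linear_combination e2 - e3
    exact sub_eq_zero.1 ((mul_eq_zero.1 e5).resolve_left e4)
  have f1 := hrel k (hQQ hk)
  have f2 := hrelK k (hQQ hk) (hQQ hDk)
  rw [hX] at f1
  have f3 : eval ![q z κ, q k κ] (pderiv 1 (G k)) * (deriv (q k) κ - q (D k) κ) = 0 := by
    linear_combination f1 - f2
  exact sub_eq_zero.1 ((mul_eq_zero.1 f3).resolve_left (hwval k (hQQ hk) (hwQ k hk)))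

/-- bounds for the values over the points `z` with `2 T ≤ |z| ≤ 11 T` -/
theorem bounds (z : K) (hz : ∀ f : K, Al {z} f) (Q : Finset K) :
    ∃ (C : ℕ) (T₀ : ℝ), 1 ≤ T₀ ∧ ∀ T : ℝ, T₀ ≤ T → ∀ (t : Fin 1 → ℂ) (q : Q → ℂ),
      2 * T ≤ ‖t 0‖ → ‖t 0‖ ≤ 11 * T →
      Sum.elim t q ∈ Pt (Sum.elim ![z] (fun k : Q => (k : K))) → ∀ k, ‖q k‖ ≤ T ^ C := by
  classical
  have hr : Set.range (![z] : Fin 1 → K) = {z} := by simp
  have key : ∀ k : K, ∃ (C : ℕ) (T₀ : ℝ), ∀ T : ℝ, T₀ ≤ T → ∀ (t : Fin 1 → ℂ) (w : ℂ),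
      2 * T ≤ ‖t 0‖ → ‖t 0‖ ≤ 11 * T →
      Sum.elim t (fun _ : Unit => w) ∈ Pt (Sum.elim ![z] (fun _ : Unit => k)) →
      ‖w‖ ≤ T ^ C := by
    intro k
    obtain ⟨A, ⟨b, hb⟩, hA⟩ := Pool.Agent.Q206.EG.alg_poly (![z] : Fin 1 → K) k
      (by rw [hr]; exact hz k)
    have hA0 : A ≠ 0 := by
      rintro rfl
      apply hb
      rw [Polynomial.coeff_zero, map_zero]
    obtain ⟨C, T₀, h⟩ := rootsT hA0
    refine ⟨C, T₀, fun T hT t w h1 h2 hp => h T hT t h1 h2 w ?_⟩
    have h3 := hp (A.eval₂ (rename Sum.inl : MvPolynomial (Fin 1) ℂ →ₐ[ℂ]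
      MvPolynomial (Fin 1 ⊕ Unit) ℂ).toRingHom (X (Sum.inr ()))) (by
        rw [← hA, Polynomial.eval_map]
        have h := Polynomial.hom_eval₂ A
          (rename Sum.inl : MvPolynomial (Fin 1) ℂ →ₐ[ℂ] MvPolynomial (Fin 1 ⊕ Unit) ℂ).toRingHom
          (aeval (Sum.elim ![z] (fun _ : Unit => k)) :
            MvPolynomial (Fin 1 ⊕ Unit) ℂ →ₐ[ℂ] K).toRingHom (X (Sum.inr ()))
        have h1 : ((aeval (Sum.elim ![z] (fun _ : Unit => k)) :
            MvPolynomial (Fin 1 ⊕ Unit) ℂ →ₐ[ℂ] K).toRingHom).comp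
            (rename Sum.inl : MvPolynomial (Fin 1) ℂ →ₐ[ℂ]
              MvPolynomial (Fin 1 ⊕ Unit) ℂ).toRingHom =
            (aeval ![z] : MvPolynomial (Fin 1) ℂ →ₐ[ℂ] K).toRingHom := by
          ext q
          · simp
          · simp
        have h2 : (aeval (Sum.elim ![z] (fun _ : Unit => k)) :
            MvPolynomial (Fin 1 ⊕ Unit) ℂ →ₐ[ℂ] K).toRingHom (X (Sum.inr ())) = k := by
          simp
        rw [h1, h2] at h
        exact h)
    rw [Polynomial.hom_eval₂] at h3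
    rw [Polynomial.eval_map]
    have h4 : (eval (Sum.elim t (fun _ : Unit => w))).comp
        (rename Sum.inl : MvPolynomial (Fin 1) ℂ →ₐ[ℂ]
              MvPolynomial (Fin 1 ⊕ Unit) ℂ).toRingHom = eval t := by
      ext q
      · simp
      · simp
    rw [h4, eval_X] at h3
    exact h3
  choose C T₀ h using key
  refine ⟨∑ k ∈ Q, C k, ∑ k ∈ Q, |T₀ k| + 1, ?_, ?_⟩
  · have : 0 ≤ ∑ k ∈ Q, |T₀ k| := Finset.sum_nonneg fun k _ => abs_nonneg _
    linarith
  · intro T hT t q h1 h2 hp k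
    have hS : 0 ≤ ∑ k ∈ Q, |T₀ k| := Finset.sum_nonneg fun k _ => abs_nonneg _
    have hk : |T₀ k| ≤ ∑ k ∈ Q, |T₀ k| :=
      Finset.single_le_sum (f := fun k => |T₀ k|) (fun k _ => abs_nonneg _) k.2
    have h3 := h k T (by have := le_abs_self (T₀ k); linarith) t (q k) h1 h2 (by
      intro g hg
      have h4 := hp (rename (Sum.elim Sum.inl (fun _ => Sum.inr k)) g) (by
        rw [aeval_rename]
        have : (Sum.elim ![z] (fun k : Q => (k : K))) ∘
            (Sum.elim Sum.inl (fun _ : Unit => Sum.inr k)) =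
            Sum.elim ![z] (fun _ : Unit => (k : K)) := by
          funext i
          rcases i with i | i <;> rfl
        rw [this]
        exact hg)
      rw [eval_rename] at h4
      have : (Sum.elim t q) ∘ (Sum.elim Sum.inl (fun _ : Unit => Sum.inr k)) =
            Sum.elim t (fun _ : Unit => q k) := by
        funext i
        rcases i with i | i <;> rfl
      rwa [this] at h4)
    refine h3.trans (pow_le_pow_right₀ (by linarith) ?_)
    exact Finset.single_le_sum (f := fun k => C k) (fun k _ => Nat.zero_le _) k.2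

/-- **job RAY** -/
theorem ray (h2 : S_sheet) (h3 : S_fixp) : S_ray := by
  classical
  intro K _ _ z y D htr hz hy hD Q
  obtain ⟨Q', hQQ, hzQ, hyQ, hinv, hder⟩ := ders z y D hz hy hD Q
  have hr : Set.range (![z] : Fin 1 → K) = {z} := by simp
  have hind : AlgebraicIndependent ℂ (![z] : Fin 1 → K) := by
    rw [algebraicIndependent_unique_type_iff]
    exact htr
  obtain ⟨H, hH0, hH1, hH2, -⟩ := h2 1 K ![z] Q' (fun k : Q' => (k : K)) hind
    (fun k => by rw [hr]; exact hz _)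
  obtain ⟨C, T₁, hT₁, hbd⟩ := bounds z hz Q'
  obtain ⟨m, R₀, hm, hlow⟩ := low hH0
  -- `log T` is small
  obtain ⟨T₂, hT₂⟩ : ∃ T₂ : ℝ, ∀ T : ℝ, T₂ ≤ T → 4 * (6 * (C * Real.log T) + 10) ≤ T / 64 := by
    have h1 : Tendsto (fun T : ℝ => (4 * (6 * (C * Real.log T) + 10)) / T) atTop (𝓝 0) := by
      have h2 : Tendsto (fun T : ℝ => Real.log T / T) atTop (𝓝 0) :=
        Real.isLittleO_log_id_atTop.tendsto_div_nhds_zero
      have h3 : Tendsto (fun T : ℝ => (24 * C) * (Real.log T / T) + 40 * T⁻¹) atTop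
          (𝓝 ((24 * C) * 0 + 40 * 0)) :=
        (h2.const_mul _).add (tendsto_inv_atTop_zero.const_mul _)
      rw [mul_zero, mul_zero, add_zero] at h3
      refine h3.congr fun T => ?_
      ring
    have h4 := (h1.eventually_lt_const (show (0 : ℝ) < 1 / 64 by norm_num)).and
      (eventually_gt_atTop (0 : ℝ))
    obtain ⟨T₂, h5⟩ := h4.exists_forall_of_atTop
    refine ⟨T₂, fun T hT => ?_⟩
    obtain ⟨h6, h7⟩ := h5 T hT
    rw [div_lt_iff₀ h7] at h6
    linarith
  refine ⟨C, max (max T₁ 1) (max R₀ T₂), fun T hT => ?_⟩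
  have hT1 : T₁ ≤ T := (le_max_left _ _).trans ((le_max_left _ _).trans hT)
  have hT1' : 1 ≤ T := hT₁.trans hT1
  have hTR : R₀ ≤ T := (le_max_left _ _).trans ((le_max_right _ _).trans hT)
  have hT2 : T₂ ≤ T := (le_max_right _ _).trans ((le_max_right _ _).trans hT)
  have hT0 : 0 < T := by linarith
  have hTc : (T : ℂ) ≠ 0 := by exact_mod_cast hT0.ne'
  have hlogT : 0 ≤ Real.log T := Real.log_nonneg hT1'
  -- the family of points
  set XX : (Fin 1 → ℂ) → Fin 1 → ℂ := fun u _ => 2 * Real.pi * Complex.I * T + 4 * T * u 0 with hXX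
  have hnorm : ∀ u ∈ ball (0 : Fin 1 → ℂ) 1, 2 * T ≤ ‖XX u 0‖ ∧ ‖XX u 0‖ ≤ 11 * T := by
    intro u hu
    have hu0 : ‖u 0‖ < 1 := lt_of_le_of_lt (norm_le_pi_norm u 0) (mem_ball_zero_iff.1 hu)
    have e1 : ‖(2 * Real.pi * Complex.I * T : ℂ)‖ = 2 * Real.pi * T := by
      rw [norm_mul, norm_mul, norm_mul, Complex.norm_I, Complex.norm_real, Complex.norm_real,
        Real.norm_eq_abs, Real.norm_eq_abs, abs_of_pos Real.pi_pos, abs_of_pos hT0]
      norm_num
    have e2 : ‖(4 * T * u 0 : ℂ)‖ ≤ 4 * T := by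
      rw [norm_mul, norm_mul, Complex.norm_real, Real.norm_eq_abs, abs_of_pos hT0]
      have : ‖(4 : ℂ)‖ = 4 := by norm_num
      rw [this]
      nlinarith
    have p1 := Real.pi_gt_three
    have p2 := Real.pi_lt_d2
    constructor
    · have := norm_sub_norm_le (2 * Real.pi * Complex.I * T : ℂ) (-(4 * T * u 0))
      rw [norm_neg, sub_neg_eq_add] at this
      have h5 : ‖XX u 0‖ = ‖(2 * Real.pi * Complex.I * T + 4 * T * u 0 : ℂ)‖ := rfl
      rw [h5]
      nlinarith
    · have := norm_add_le (2 * Real.pi * Complex.I * T : ℂ) (4 * T * u 0)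
      have h5 : ‖XX u 0‖ = ‖(2 * Real.pi * Complex.I * T + 4 * T * u 0 : ℂ)‖ := rfl
      rw [h5]
      nlinarith
  have hHne : ∀ u ∈ ball (0 : Fin 1 → ℂ) 1, eval (XX u) H ≠ 0 := by
    intro u hu h0
    have h4 := hlow (XX u) (by have := (hnorm u hu).1; linarith)
    rw [h0, norm_zero] at h4
    linarith
  have hXd : DifferentiableOn ℂ XX (ball (0 : Fin 1 → ℂ) 1) := by
    rw [differentiableOn_pi]
    intro i
    apply Differentiable.differentiableOn
    simp only [hXX]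
    fun_prop
  have h0mem : (0 : Fin 1 → ℂ) ∈ ball (0 : Fin 1 → ℂ) 1 := mem_ball_self one_pos
  obtain ⟨q₀, hq₀⟩ := hH1 (XX 0) (hHne 0 h0mem)
  obtain ⟨q, hqd, -, hqP⟩ := hH2 (Fin 1 → ℂ) (ball (0 : Fin 1 → ℂ) 1) XX isOpen_ball
    (convex_ball _ _) hXd hHne 0 h0mem q₀ hq₀
  have hqd' : ∀ k, DifferentiableOn ℂ (fun u => q u k) (ball (0 : Fin 1 → ℂ) 1) :=
    differentiableOn_pi.1 hqd
  -- all values
  set qq : K → (Fin 1 → ℂ) → ℂ := fun k u => if h : k ∈ Q' then q u ⟨k, h⟩ else 0 with hqq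
  have hqqd : ∀ k, DifferentiableOn ℂ (qq k) (ball (0 : Fin 1 → ℂ) 1) := by
    intro k
    simp only [hqq]
    by_cases h : k ∈ Q'
    · simp only [dif_pos h]
      exact hqd' _
    · simp only [dif_neg h]
      exact differentiableOn_const 0
  have hvals : ∀ u ∈ ball (0 : Fin 1 → ℂ) 1, Vals Q' (fun k => qq k u) := by
    intro u hu σ e he g hg
    have h4 := hqP u hu (rename (fun i => Sum.inr ⟨e i, he i⟩) g) (by
      rw [aeval_rename]
      exact hg)
    rw [eval_rename] at h4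
    have h5 : (Sum.elim (XX u) (q u)) ∘ (fun i => Sum.inr (⟨e i, he i⟩ : Q')) =
        fun i => qq (e i) u := by
      funext i
      simp only [hqq, dif_pos (he i)]
      rfl
    rwa [h5] at h4
  have hzval : ∀ u ∈ ball (0 : Fin 1 → ℂ) 1, qq z u = XX u 0 := by
    intro u hu
    have h4 := hqP u hu (X (Sum.inr ⟨z, hzQ⟩) - X (Sum.inl 0)) (by
      rw [map_sub, aeval_X, aeval_X]
      exact sub_self _)
    rw [map_sub, eval_X, eval_X] at h4
    simp only [hqq, dif_pos hzQ]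
    exact sub_eq_zero.1 h4
  have hup : ∀ u ∈ ball (0 : Fin 1 → ℂ) 1, ∀ k ∈ Q', ‖qq k u‖ ≤ T ^ C := by
    intro u hu k hk
    simp only [hqq, dif_pos hk]
    exact hbd T hT1 (XX u) (q u) (hnorm u hu).1 (hnorm u hu).2 (hqP u hu) _
  have hlo : ∀ u ∈ ball (0 : Fin 1 → ℂ) 1, ∀ k ∈ Q', k ≠ 0 → (T ^ C)⁻¹ ≤ ‖qq k u‖ := by
    intro u hu k hk h0
    have h4 := (hvals u hu).inv hk (hinv k hk) h0
    have h5 := hup u hu _ (hinv k hk)
    have h6 : ‖qq k u‖ * ‖qq k⁻¹ u‖ = 1 := by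
      rw [← norm_mul, h4, norm_one]
    have h7 : 0 < T ^ C := by positivity
    rw [inv_le_iff_one_le_mul₀ h7, ← h6]
    exact mul_le_mul_of_nonneg_left h5 (norm_nonneg _)
  -- the logarithm
  have hyne : ∀ u ∈ ball (0 : Fin 1 → ℂ) 1, qq y u ≠ 0 := fun u hu =>
    (hvals u hu).ne hyQ (hinv y hyQ) hy
  obtain ⟨ℓ, hℓd, hℓe, hℓi⟩ := Pool.Agent.Q177.EG.log 1 0 1 (qq y) one_pos (hqqd y) hyne
  have hℓr : ∀ u ∈ ball (0 : Fin 1 → ℂ) 1, |(ℓ u).re| ≤ C * Real.log T := by
    intro u hu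
    have h4 : Real.exp (ℓ u).re = ‖qq y u‖ := by
      rw [← hℓe u hu, Complex.norm_exp]
    have h5 := hup u hu y hyQ
    have h6 := hlo u hu y hyQ hy
    rw [← h4] at h5 h6
    have h7 : Real.log (T ^ C) = C * Real.log T := Real.log_pow _ _
    have h8 : 0 < T ^ C := by positivity
    rw [abs_le]
    constructor
    · have := Real.log_le_log (by positivity) h6
      rw [Real.log_exp, Real.log_inv, h7] at this
      exact this
    · have := Real.log_le_log (Real.exp_pos _) h5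
      rwa [Real.log_exp, h7] at this
  have hℓb := Pool.Agent.Q177.EG.bc 1 0 1 (C * Real.log T) ℓ one_pos (by positivity) hℓd hℓr hℓi
  -- the fixed point
  set arg : ℂ → ℂ → Fin 1 → ℂ := fun w s _ => Real.pi * Complex.I / 8 * s + w / 16 with harg
  have hargn : ∀ w s : ℂ, ‖w‖ < 1 → ‖s‖ < 1 → arg w s ∈ ball (0 : Fin 1 → ℂ) (1 / 2) := by
    intro w s hw hs
    rw [mem_ball_zero_iff]
    rw [pi_norm_lt_iff (by norm_num)]
    intro i
    have p2 := Real.pi_lt_d2
    have p1 := Real.pi_pos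
    have e1 : ‖(Real.pi * Complex.I / 8 * s : ℂ)‖ ≤ Real.pi / 8 := by
      rw [norm_mul, norm_div, norm_mul, Complex.norm_I, Complex.norm_real, Real.norm_eq_abs,
        abs_of_pos p1]
      have : ‖(8 : ℂ)‖ = 8 := by norm_num
      rw [this, mul_one]
      nlinarith
    have e2 : ‖(w / 16 : ℂ)‖ ≤ 1 / 16 := by
      rw [norm_div]
      have : ‖(16 : ℂ)‖ = 16 := by norm_num
      rw [this]
      linarith
    calc ‖(Real.pi * Complex.I / 8 * s + w / 16 : ℂ)‖ ≤ Real.pi / 8 + 1 / 16 :=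
          (norm_add_le _ _).trans (add_le_add e1 e2)
      _ < 1 / 2 := by linarith
  have hhalf : ball (0 : Fin 1 → ℂ) (1 / 2) ⊆ ball (0 : Fin 1 → ℂ) 1 :=
    ball_subset_ball (by norm_num)
  obtain ⟨φ, hφd, hφ⟩ := h3 (fun v => 4 / T * ℓ (arg (v 0) (v 1))) (by
      apply DifferentiableOn.const_mul
      apply hℓd.comp
      · apply Differentiable.differentiableOn
        rw [differentiable_pi]
        intro i
        simp only [harg]
        fun_prop
      · intro v hv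
        have hv' := mem_ball_zero_iff.1 hv
        exact hhalf (hargn _ _ (lt_of_le_of_lt (norm_le_pi_norm v 0) hv')
          (lt_of_le_of_lt (norm_le_pi_norm v 1) hv')))
    (by
      intro v hv
      have hv' := mem_ball_zero_iff.1 hv
      have h4 := hℓb _ (hargn _ _ (lt_of_le_of_lt (norm_le_pi_norm v 0) hv')
          (lt_of_le_of_lt (norm_le_pi_norm v 1) hv'))
      have h5 := hT₂ T hT2
      rw [norm_mul, norm_div, Complex.norm_real, Real.norm_eq_abs, abs_of_pos hT0]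
      have : ‖(4 : ℂ)‖ = 4 := by norm_num
      rw [this, div_mul_eq_mul_div, div_le_iff₀ hT0]
      linarith)
  -- the solution
  set sc : ℂ → ℂ := fun κ => 4 * (κ - T) / T with hsc
  have hscn : ∀ κ ∈ ball (T : ℂ) (T / 4), sc κ ∈ ball (0 : ℂ) 1 := by
    intro κ hκ
    rw [mem_ball, dist_eq_norm] at hκ
    rw [mem_ball_zero_iff]
    simp only [hsc]
    rw [norm_div, norm_mul, Complex.norm_real, Real.norm_eq_abs, abs_of_pos hT0, div_lt_one hT0]
    have : ‖(4 : ℂ)‖ = 4 := by norm_num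
    rw [this]
    linarith
  set uu : ℂ → Fin 1 → ℂ := fun κ => arg (φ (sc κ)) (sc κ) with huu
  have huun : ∀ κ ∈ ball (T : ℂ) (T / 4), uu κ ∈ ball (0 : Fin 1 → ℂ) (1 / 2) := by
    intro κ hκ
    have h4 := hscn κ hκ
    refine hargn _ _ ?_ (mem_ball_zero_iff.1 h4)
    exact lt_of_le_of_lt (hφ _ h4).1 (by norm_num)
  have huud : DifferentiableOn ℂ uu (ball (T : ℂ) (T / 4)) := by
    have h4 : DifferentiableOn ℂ sc (ball (T : ℂ) (T / 4)) := by
      apply Differentiable.differentiableOn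
      simp only [hsc]
      fun_prop
    have h5 : DifferentiableOn ℂ (fun κ => φ (sc κ)) (ball (T : ℂ) (T / 4)) :=
      hφd.comp h4 hscn
    rw [differentiableOn_pi]
    intro i
    simp only [huu, harg]
    exact (h4.const_mul _).add (h5.div_const _)
  have hXeq : ∀ κ ∈ ball (T : ℂ) (T / 4),
      XX (uu κ) 0 = 2 * Real.pi * Complex.I * κ + ℓ (uu κ) := by
    intro κ hκ
    have h4 := (hφ _ (hscn κ hκ)).2
    simp only [Matrix.cons_val_zero, Matrix.cons_val_one] at h4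
    have h5 : ℓ (uu κ) = T / 4 * φ (sc κ) := by
      have h6 : φ (sc κ) = 4 / T * ℓ (uu κ) := h4
      rw [h6]
      field_simp
    rw [h5]
    simp only [hXX, huu, harg]
    have h6 : sc κ = 4 * (κ - T) / T := rfl
    generalize φ (sc κ) = a
    rw [h6]
    field_simp
    ring
  refine ⟨fun κ => qq z (uu κ), fun k κ => qq k (uu κ), ?_, ?_, ?_⟩
  · exact (hqqd z).comp huud fun κ hκ => hhalf (huun κ hκ)
  · exact fun k _ => (hqqd k).comp huud fun κ hκ => hhalf (huun κ hκ)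
  · intro κ hκ
    have hexp : ∀ κ ∈ ball (T : ℂ) (T / 4),
        qq y (uu κ) = Complex.exp (qq z (uu κ) - 2 * Real.pi * Complex.I * κ) := by
      intro κ hκ
      have h4 := hhalf (huun κ hκ)
      rw [hzval _ h4, hXeq κ hκ, add_sub_cancel_left, hℓe _ h4]
    have hu := hhalf (huun κ hκ)
    refine ⟨?_, ?_, ?_⟩
    · intro g hg
      have h4 := hvals _ hu (Fin 2 ⊕ Q) (Sum.elim ![z, y] (fun k : Q => (k : K))) (by
        rintro (i | i)
        · fin_cases i
          · exact hzQ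
          · exact hyQ
        · exact hQQ i.2) g hg
      have h5 : (fun i => qq ((Sum.elim ![z, y] (fun k : Q => (k : K)) : Fin 2 ⊕ Q → K) i) (uu κ))
          = Sum.elim ![qq z (uu κ), Complex.exp (qq z (uu κ) - 2 * Real.pi * Complex.I * κ)]
            (fun k : Q => qq k (uu κ)) := by
        funext i
        rcases i with i | i
        · fin_cases i
          · rfl
          · exact hexp κ hκ
        · rfl
      rw [h5] at h4
      exact h4
    · intro k hk
      have h4 := hup _ hu k (hQQ hk)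
      refine ⟨?_, fun h0 => ?_⟩
      · rw [Real.rpow_natCast]
        exact h4
      · rw [Real.rpow_neg hT0.le, Real.rpow_natCast]
        exact hlo _ hu k (hQQ hk) h0
    · exact hder (ball (T : ℂ) (T / 4)) (fun k κ => qq k (uu κ)) isOpen_ball
        (fun k _ => (hqqd k).comp huud fun κ hκ => hhalf (huun κ hκ))
        (fun κ hκ => hvals _ (hhalf (huun κ hκ))) hexp κ hκ

end Pool.Agent.H935.EX
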